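import Mathlib

namespace Pool.Agent.Results.MP_4e7634_nt.Nested

/-- The number of partitions of n into powers of 2. -/
noncomputable def bin (n : ℕ) : ℕ :=
  Nat.card {π : Nat.Partition n // ∀ i ∈ π.parts, ∃ k : ℕ, i = 2 ^ k}

/-- The sequence w extended to negative indices by the constant c. -/
def ext (c : ℕ) (w : ℕ → ℕ) (m : ℤ) : ℕ := if m < 0 then c else w m.toNat

/-- Auxiliary: multisets of powers of two with sum n. -/
def S (n : ℕ) : Set (Multiset ℕ) := {m | (∀ i ∈ m, ∃ k : ℕ, i = 2 ^ k) ∧ m.sum = n}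

lemma S_eq (n : ℕ) : S n = (fun π : Nat.Partition n => π.parts) ''
    {π | ∀ i ∈ π.parts, ∃ k : ℕ, i = 2 ^ k} := by
  ext m
  constructor
  · rintro ⟨h1, h2⟩
    refine ⟨⟨m, ?_, h2⟩, h1, rfl⟩
    intro i hi
    obtain ⟨k, rfl⟩ := h1 i hi
    positivity
  · rintro ⟨π, h, rfl⟩
    exact ⟨h, π.parts_sum⟩

lemma S_fin (n : ℕ) : (S n).Finite := by
  rw [S_eq]; exact (Set.toFinite _).image _

lemma bin_eq (n : ℕ) : bin n = (S n).ncard := by
  rw [S_eq, Set.ncard_image_of_injective _ (fun a b h => Nat.Partition.ext h)]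
  rfl

lemma with_one (n : ℕ) : (S (n + 1) ∩ {m | 1 ∈ m}).ncard = bin n := by
  rw [bin_eq, ← Set.ncard_image_of_injective (S n) (f := fun t : Multiset ℕ => 1 ::ₘ t) (fun a b h => (Multiset.cons_inj_right 1).mp h)]
  congr 1
  ext m
  constructor
  · rintro ⟨⟨h1, h2⟩, h3⟩
    obtain ⟨t, rfl⟩ := Multiset.exists_cons_of_mem h3
    refine ⟨t, ⟨fun i hi => h1 i (Multiset.mem_cons_of_mem hi), ?_⟩, rfl⟩
    rw [Multiset.sum_cons] at h2
    omega
  · rintro ⟨t, ⟨h1, h2⟩, rfl⟩
    refine ⟨⟨?_, ?_⟩, Multiset.mem_cons_self _ _⟩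
    · intro i hi
      rcases Multiset.mem_cons.mp hi with rfl | hi
      · exact ⟨0, rfl⟩
      · exact h1 i hi
    · rw [Multiset.sum_cons, h2, add_comm]

lemma no_one (n : ℕ) : S n \ {m | 1 ∈ m} =
    (Multiset.map (fun i => 2 * i)) '' {m | (∀ i ∈ m, ∃ k : ℕ, i = 2 ^ k) ∧ 2 * m.sum = n} := by
  ext m
  constructor
  · rintro ⟨⟨h1, h2⟩, h3⟩
    have hm : (m.map (fun i => i / 2)).map (fun i => 2 * i) = m := by
      rw [Multiset.map_map]
      conv_rhs => rw [← Multiset.map_id m]
      refine Multiset.map_congr rfl (fun i hi => ?_)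
      obtain ⟨k, rfl⟩ := h1 i hi
      rcases k with _ | k
      · exact absurd hi h3
      · simp only [Function.comp, id, pow_succ]; omega
    refine ⟨m.map (fun i => i / 2), ⟨?_, ?_⟩, hm⟩
    · intro i hi
      obtain ⟨j, hj, rfl⟩ := Multiset.mem_map.mp hi
      obtain ⟨k, rfl⟩ := h1 j hj
      rcases k with _ | k
      · exact absurd hj h3
      · exact ⟨k, by rw [pow_succ]; omega⟩
    · rw [← h2]
      conv_rhs => rw [← hm, Multiset.sum_map_mul_left]
      simp
  · rintro ⟨t, ⟨h1, h2⟩, rfl⟩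
    refine ⟨⟨?_, ?_⟩, ?_⟩
    · intro i hi
      obtain ⟨j, hj, rfl⟩ := Multiset.mem_map.mp hi
      obtain ⟨k, rfl⟩ := h1 j hj
      exact ⟨k + 1, by ring⟩
    · rw [Multiset.sum_map_mul_left]; simpa using h2
    · intro h
      obtain ⟨j, -, hj⟩ := Multiset.mem_map.mp h
      omega

lemma bin_odd (n : ℕ) : bin (2 * n + 1) = bin (2 * n) := by
  rw [bin_eq, ← Set.ncard_inter_add_ncard_sdiff_eq_ncard _ {m | 1 ∈ m} (S_fin _), with_one, no_one]
  have : {m : Multiset ℕ | (∀ i ∈ m, ∃ k : ℕ, i = 2 ^ k) ∧ 2 * m.sum = 2 * n + 1} = ∅ := by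
    ext m
    simp only [Set.mem_ofPred_eq, Set.mem_empty_iff_false, iff_false, not_and]
    intro _; omega
  rw [this]; simp

lemma bin_even (n : ℕ) : bin (2 * n + 2) = bin (2 * n + 1) + bin (n + 1) := by
  rw [bin_eq, ← Set.ncard_inter_add_ncard_sdiff_eq_ncard _ {m | 1 ∈ m} (S_fin _), with_one, no_one,
    Set.ncard_image_of_injective _ (Multiset.map_injective (fun a b h => by simpa using h)),
    bin_eq (n + 1)]
  congr 2
  ext m
  simp only [S, Set.mem_ofPred_eq]
  constructor <;> rintro ⟨h1, h2⟩ <;> exact ⟨h1, by omega⟩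

lemma bin_zero : bin 0 = 1 := by
  rw [bin_eq]
  have : S 0 = {0} := by
    ext m
    simp only [S, Set.mem_ofPred_eq, Set.mem_singleton_iff]
    constructor
    · rintro ⟨h1, h2⟩
      rw [Multiset.eq_zero_iff_forall_notMem]
      intro i hi
      obtain ⟨k, rfl⟩ := h1 i hi
      have := Multiset.single_le_sum (fun _ _ => Nat.zero_le _) _ hi
      have : 0 < 2 ^ k := by positivity
      omega
    · rintro rfl; simp
  rw [this]; simp

lemma bin_rec (n : ℕ) : bin (n + 2) = bin n + bin ((n + 2) / 2) := by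
  obtain ⟨m, rfl | rfl⟩ := Nat.even_or_odd' n
  · rw [bin_even, bin_odd]; congr 2; omega
  · rw [show 2 * m + 1 + 2 = 2 * (m + 1) + 1 by ring, bin_odd, show 2 * (m + 1) = 2 * m + 2 by ring,
      bin_even]
    congr 2; omega

lemma bin_mono : Monotone bin := by
  apply monotone_nat_of_le_succ
  intro n
  obtain ⟨m, rfl | rfl⟩ := Nat.even_or_odd' n
  · rw [bin_odd]
  · rw [bin_even]; omega

lemma bin_big (n : ℕ) : 2 * (n + 18) + 2 < bin (n + 18) := by
  have h0 := bin_zero
  have h1 : bin 1 = 1 := by have := bin_odd 0; simp at this; omega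
  have r := fun n => bin_rec n
  have h2 : bin 2 = 2 := by have := r 0; norm_num at this; omega
  have h3 : bin 3 = 2 := by have := r 1; norm_num at this; omega
  have h4 : bin 4 = 4 := by have := r 2; norm_num at this; omega
  have h5 : bin 5 = 4 := by have := r 3; norm_num at this; omega
  have h6 : bin 6 = 6 := by have := r 4; norm_num at this; omega
  have h7 : bin 7 = 6 := by have := r 5; norm_num at this; omega
  have h8 : bin 8 = 10 := by have := r 6; norm_num at this; omega
  have h9 : bin 9 = 10 := by have := r 7; norm_num at this; omega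
  have h10 : bin 10 = 14 := by have := r 8; norm_num at this; omega
  have h12 : bin 12 = 20 := by have := r 10; norm_num at this; omega
  have h14 : bin 14 = 26 := by have := r 12; norm_num at this; omega
  have h16 : bin 16 = 36 := by have := r 14; norm_num at this; omega
  have h18 : bin 18 = 46 := by have := r 16; norm_num at this; omega
  induction n using Nat.strong_induction_on with
  | _ n ih =>
    rcases n with _ | _ | n
    · simp [h18]
    · have h19 := bin_odd 9
      norm_num at h19 ⊢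
      omega
    · have := ih n (by omega)
      have h := r (n + 18)
      have h' := bin_mono (show 4 ≤ (n + 18 + 2) / 2 by omega)
      rw [show n + 1 + 1 + 18 = n + 18 + 2 by ring]
      omega

theorem result :
    ∃ (p q : ℕ) (u : Fin p → ℕ) (v : Fin q → ℕ) (c k : ℕ) (w : ℕ → ℕ) (a b : ℕ),
      (∀ i, 0 < u i) ∧ (∀ j, 0 < v j) ∧ (∀ n, 0 < w n) ∧
      (∀ n : ℕ, k ≤ n → w n =
        ∑ i, ext c w ((n : ℤ) - ext c w ((n : ℤ) - u i)) + ∑ j, ext c w ((n : ℤ) - v j)) ∧
      1 ≤ a ∧ ∀ n : ℕ, w (a * n + b) = bin n := by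
  refine ⟨1, 1, fun _ => 1, fun _ => 4, 2, 40,
    fun n => if n % 2 = 1 then bin (n / 2) else if n = 0 then 1 else 2 * ((n / 2 + 1) / 2),
    2, 1, by simp, by simp, ?_, ?_, by norm_num, ?_⟩
  · intro n
    have := bin_mono (Nat.zero_le (n / 2))
    rw [bin_zero] at this
    beta_reduce
    split_ifs <;> omega
  · intro n hn
    simp only [Finset.univ_unique, Finset.sum_const, Finset.card_singleton, smul_eq_mul, one_mul,
      ext]
    have e1 : ((n : ℤ) - (1 : ℕ)).toNat = n - 1 := by omega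
    have e4 : ((n : ℤ) - (4 : ℕ)).toNat = n - 4 := by omega
    rw [e1, e4, if_neg (show ¬ (n : ℤ) - (1 : ℕ) < 0 by omega),
      if_neg (show ¬ (n : ℤ) - (4 : ℕ) < 0 by omega)]
    obtain ⟨m, rfl | rfl⟩ := Nat.even_or_odd' n
    · have hb := bin_big (m - 19)
      rw [show m - 19 + 18 = (2 * m - 1) / 2 by omega] at hb
      rw [if_neg (by omega), if_neg (by omega), if_pos (show (2 * m - 1) % 2 = 1 by omega),
        if_pos (by omega), if_neg (by omega), if_neg (by omega)]
      omega
    · rw [if_pos (by omega), if_neg (show ¬ (2 * m + 1 - 1) % 2 = 1 by omega),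
        if_neg (show ¬ 2 * m + 1 - 1 = 0 by omega), if_neg (by omega),
        if_pos (show (2 * m + 1 - 4) % 2 = 1 by omega), if_pos (by omega)]
      have h := bin_rec (m - 2)
      rw [show m - 2 + 2 = m by omega] at h
      rw [show (2 * m + 1) / 2 = m by omega, show (2 * m + 1 - 4) / 2 = m - 2 by omega, h,
        add_comm]
      congr 2
      omega
  · intro n
    beta_reduce
    rw [if_pos (by omega)]
    congr 1
    omega

end Pool.Agent.Results.MP_4e7634_nt.Nested
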